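import Mathlib

set_option autoImplicit false

open Metric

namespace Pool.Agent.Results.MP_ffcab7_co.NotPackable

/-- `(c v, r v)` are the centres and radii of a family of closed balls in `ℝ^d`, one per vertex,
with positive radii and pairwise disjoint interiors, two of them tangent exactly when the
vertices are adjacent in `G`. For `d = 2` this is a circle packing of `G`. -/
structure IsBallPacking {V : Type} (d : ℕ) (G : SimpleGraph V)
    (c : V → EuclideanSpace ℝ (Fin d)) (r : V → ℝ) : Prop where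
  radius_pos : ∀ v, 0 < r v
  interiors_disjoint : ∀ u v, u ≠ v → Disjoint (ball (c u) (r u)) (ball (c v) (r v))
  tangent_iff : ∀ u v, u ≠ v →
    ((closedBall (c u) (r u) ∩ closedBall (c v) (r v)).Nonempty ↔ G.Adj u v)

/-- `G` is sphere packable in `ℝ^d`. -/
def SpherePackable {V : Type} (d : ℕ) (G : SimpleGraph V) : Prop :=
  ∃ (c : V → EuclideanSpace ℝ (Fin d)) (r : V → ℝ), IsBallPacking d G c r

/-- Height functions on `G`. -/
def IsHeight {V : Type} (G : SimpleGraph V) (f : V → ℤ) : Prop :=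
  ∀ u v, G.Adj u v → |f u - f v| ≤ 1

/-- `s` chooses, for every vertex `v` having a strictly lower vertex, a strictly lower vertex
whose disk centre is nearest to that of `v`. -/
def IsNearestLower {V : Type} (f : V → ℤ) (c : V → EuclideanSpace ℝ (Fin 2)) (s : V → V) : Prop :=
  ∀ v, (∃ u, f u < f v) → f (s v) < f v ∧ ∀ u, f u < f v → dist (c (s v)) (c v) ≤ dist (c u) (c v)

/-- The augmented graph: the edges of `G` together with the edge `v - s v` for every `v` having a
strictly lower vertex. -/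
def augment {V : Type} (G : SimpleGraph V) (f : V → ℤ) (s : V → V) : SimpleGraph V :=
  G ⊔ SimpleGraph.fromRel (fun v w => (∃ u, f u < f v) ∧ w = s v)

/-! ### Balls tangent to three mutually tangent balls -/

lemma dist_of_packing {V : Type} {d : ℕ} {G : SimpleGraph V}
    {c : V → EuclideanSpace ℝ (Fin d)} {r : V → ℝ} (h : IsBallPacking d G c r) {u v : V}
    (huv : u ≠ v) : r u + r v ≤ dist (c u) (c v) :=
  (disjoint_ball_ball_iff (h.radius_pos u) (h.radius_pos v)).1 (h.interiors_disjoint u v huv)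

lemma dist_of_adj {V : Type} {d : ℕ} {G : SimpleGraph V}
    {c : V → EuclideanSpace ℝ (Fin d)} {r : V → ℝ} (h : IsBallPacking d G c r) {u v : V}
    (huv : G.Adj u v) : dist (c u) (c v) = r u + r v := by
  refine le_antisymm ?_ (dist_of_packing h huv.ne)
  have := (h.tangent_iff u v huv.ne).2 huv
  by_contra hlt
  rw [not_le] at hlt
  have hd := (disjoint_closedBall_closedBall_iff (h.radius_pos u).le (h.radius_pos v).le).2 hlt
  rw [Set.disjoint_iff_inter_eq_empty] at hd
  rw [hd] at this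
  exact Set.not_nonempty_empty this

/-- The key computation, in an inner product space. The balls `(a, ra)` and `(b, rb)` are
tangent; `o` is the tangency point. Two balls `(x, s)`, `(y, t)` tangent to both satisfy
`‖(x - o)/s - (y - o)/t‖ ≥ 2`, with equality when they are tangent. -/
lemma key {E : Type*} [NormedAddCommGroup E] [InnerProductSpace ℝ E] (a b x : E)
    (ra rb s : ℝ) (ha : 0 < ra) (hb : 0 < rb)
    (hab : dist a b = ra + rb) (hax : dist a x = ra + s) (hbx : dist b x = rb + s) :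
    ‖x - (a + (ra / (ra + rb)) • (b - a))‖ ^ 2 = s ^ 2 + 4 * ra * rb / (ra + rb) * s := by
  have hab2 : ‖b - a‖ ^ 2 = (ra + rb) ^ 2 := by
    rw [← hab, dist_comm, dist_eq_norm]
  have hax2 : ‖x - a‖ ^ 2 = (ra + s) ^ 2 := by
    rw [← hax, dist_comm, dist_eq_norm]
  have hbx2 : ‖x - b‖ ^ 2 = (rb + s) ^ 2 := by
    rw [← hbx, dist_comm, dist_eq_norm]
  have e1 : x - b = (x - a) - (b - a) := by abel
  have e2 : x - (a + (ra / (ra + rb)) • (b - a)) = (x - a) - (ra / (ra + rb)) • (b - a) := by abel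
  rw [e1, norm_sub_sq_real, hab2, hax2] at hbx2
  rw [e2, norm_sub_sq_real, norm_smul, mul_pow, hab2, hax2, inner_smul_right, Real.norm_eq_abs,
    sq_abs]
  have hne : ra + rb ≠ 0 := by positivity
  have hin : inner ℝ (x - a) (b - a) = ((ra + s) ^ 2 + (ra + rb) ^ 2 - (rb + s) ^ 2) / 2 := by
    linarith
  rw [hin]
  field_simp
  ring

lemma key2 {E : Type*} [NormedAddCommGroup E] [InnerProductSpace ℝ E] (x y : E)
    (s t h : ℝ) (hs : 0 < s) (ht : 0 < t) (hx : ‖x‖ ^ 2 = s ^ 2 + h * s)
    (hy : ‖y‖ ^ 2 = t ^ 2 + h * t) :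
    ‖s⁻¹ • x - t⁻¹ • y‖ ^ 2 = 4 + (‖x - y‖ ^ 2 - (s + t) ^ 2) / (s * t) := by
  rw [norm_sub_sq_real, norm_sub_sq_real, norm_smul, norm_smul, mul_pow, mul_pow, hx, hy,
    inner_smul_left, inner_smul_right, Real.norm_eq_abs, Real.norm_eq_abs, sq_abs, sq_abs]
  simp only [conj_trivial]
  field_simp
  ring


/-- In each dimension, the number of balls (with disjoint interiors) tangent to three mutually
tangent balls is bounded. -/
lemma no_pack (d : ℕ) : ∃ N : ℕ, ∀ (V : Type) (G : SimpleGraph V) (a b e : V) (w : Fin N → V),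
    Function.Injective w → G.Adj a b → G.Adj a e → G.Adj b e →
    (∀ i, G.Adj a (w i) ∧ G.Adj b (w i) ∧ G.Adj e (w i)) → ¬ SpherePackable d G := by
  classical
  obtain ⟨t, htfin, ht⟩ := Metric.totallyBounded_iff.1
    (isCompact_closedBall (0 : EuclideanSpace ℝ (Fin d)) 2).totallyBounded 1 one_pos
  let T : Finset (EuclideanSpace ℝ (Fin d)) := htfin.toFinset
  refine ⟨T.card + 1, ?_⟩
  rintro V G a b e w hw hab hae hbe hadj ⟨c, r, hp⟩
  set o := c a + (r a / (r a + r b)) • (c b - c a) with ho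
  set h := 4 * r a * r b / (r a + r b) with hh
  have hra := hp.radius_pos a
  have hrb := hp.radius_pos b
  have hk : ∀ v, G.Adj a v → G.Adj b v → ‖c v - o‖ ^ 2 = r v ^ 2 + h * r v := by
    intro v hav hbv
    exact key (c a) (c b) (c v) (r a) (r b) (r v) hra hrb (dist_of_adj hp hab)
      (dist_of_adj hp hav) (dist_of_adj hp hbv)
  have hk2 : ∀ v v', G.Adj a v → G.Adj b v → G.Adj a v' → G.Adj b v' →
      ‖(r v)⁻¹ • (c v - o) - (r v')⁻¹ • (c v' - o)‖ ^ 2
        = 4 + (dist (c v) (c v') ^ 2 - (r v + r v') ^ 2) / (r v * r v') := by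
    intro v v' h1 h2 h3 h4
    rw [key2 (c v - o) (c v' - o) (r v) (r v') h (hp.radius_pos v) (hp.radius_pos v')
      (hk v h1 h2) (hk v' h3 h4), sub_sub_sub_cancel_right, dist_eq_norm]
  let Q : Fin (T.card + 1) → EuclideanSpace ℝ (Fin d) := fun i =>
    (r (w i))⁻¹ • (c (w i) - o) - (r e)⁻¹ • (c e - o)
  have hQ : ∀ i, ∃ y ∈ T, dist (Q i) y < 1 := by
    intro i
    have h4 : ‖Q i‖ ^ 2 = 4 := by
      show ‖(r (w i))⁻¹ • (c (w i) - o) - (r e)⁻¹ • (c e - o)‖ ^ 2 = 4
      rw [hk2 (w i) e (hadj i).1 (hadj i).2.1 hae hbe, dist_comm, dist_of_adj hp (hadj i).2.2]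
      ring
    have hmem : Q i ∈ closedBall (0 : EuclideanSpace ℝ (Fin d)) 2 := by
      rw [mem_closedBall, dist_zero_right]
      nlinarith [norm_nonneg (Q i)]
    have := ht hmem
    simp only [Set.mem_iUnion, mem_ball, exists_prop] at this
    obtain ⟨y, hy, hy'⟩ := this
    exact ⟨y, htfin.mem_toFinset.2 hy, hy'⟩
  choose y hyT hyd using hQ
  obtain ⟨i, j, hij, hyy⟩ := Fintype.exists_ne_map_eq_of_card_lt
    (fun i : Fin (T.card + 1) => (⟨y i, hyT i⟩ : T)) (by simp)
  have hyy' : y i = y j := congrArg Subtype.val hyy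
  have hd : dist (Q i) (Q j) < 2 := by
    calc dist (Q i) (Q j) ≤ dist (Q i) (y i) + dist (y i) (Q j) := dist_triangle _ _ _
      _ < 1 + 1 := by
        rw [hyy', dist_comm (y j)]
        have := hyd i
        rw [hyy'] at this
        exact add_lt_add this (hyd j)
      _ = 2 := by norm_num
  have hne : w i ≠ w j := fun h => hij (hw h)
  have hge : 4 ≤ dist (Q i) (Q j) ^ 2 := by
    rw [dist_eq_norm]
    show 4 ≤ ‖((r (w i))⁻¹ • (c (w i) - o) - (r e)⁻¹ • (c e - o)) -
      ((r (w j))⁻¹ • (c (w j) - o) - (r e)⁻¹ • (c e - o))‖ ^ 2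
    rw [sub_sub_sub_cancel_right, hk2 (w i) (w j) (hadj i).1 (hadj i).2.1 (hadj j).1 (hadj j).2.1]
    have h1 := dist_of_packing hp hne
    have h2 := hp.radius_pos (w i)
    have h3 := hp.radius_pos (w j)
    have : 0 ≤ (dist (c (w i)) (c (w j)) ^ 2 - (r (w i) + r (w j)) ^ 2) / (r (w i) * r (w j)) := by
      apply div_nonneg _ (by positivity)
      nlinarith
    linarith
  nlinarith [dist_nonneg (x := Q i) (y := Q j)]

/-! ### The planar graph: two apices over a path -/

/-- The graph with two adjacent apices `inl _` joined to all vertices `inr k` of a path. -/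
def PG (N : ℕ) : SimpleGraph (Bool ⊕ Fin N) where
  Adj a b := match a, b with
    | Sum.inl x, Sum.inl y => x ≠ y
    | Sum.inl _, Sum.inr _ => True
    | Sum.inr _, Sum.inl _ => True
    | Sum.inr i, Sum.inr j => (i : ℕ) + 1 = j ∨ (j : ℕ) + 1 = i
  symm := by
    constructor
    rintro (x | i) (y | j) h
    · exact Ne.symm h
    · trivial
    · trivial
    · exact Or.symm h
  loopless := by
    constructor
    rintro (x | i) h
    · exact h rfl
    · rcases h with h | h <;> omega

/-- Centres of the explicit circle packing. -/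
noncomputable def cen (N : ℕ) : Bool ⊕ Fin N → EuclideanSpace ℝ (Fin 2)
  | Sum.inl x => if x then !₂[0, 1 / 2] else !₂[0, -1 / 2]
  | Sum.inr k => !₂[(2 * (k : ℝ) + 2) / ((2 * (k : ℝ) + 2) ^ 2 - 1), 0]

/-- Radii of the explicit circle packing. -/
noncomputable def rad (N : ℕ) : Bool ⊕ Fin N → ℝ
  | Sum.inl _ => 1 / 2
  | Sum.inr k => 1 / ((2 * (k : ℝ) + 2) ^ 2 - 1)

lemma dist_sq (x y x' y' : ℝ) :
    dist (!₂[x, y] : EuclideanSpace ℝ (Fin 2)) !₂[x', y'] ^ 2 = (x - x') ^ 2 + (y - y') ^ 2 := by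
  rw [EuclideanSpace.dist_eq, Real.sq_sqrt (by positivity)]
  simp [Fin.sum_univ_two, Real.dist_eq, sq_abs]

lemma packing_of_sq {V : Type} (d : ℕ) (G : SimpleGraph V)
    (c : V → EuclideanSpace ℝ (Fin d)) (r : V → ℝ) (hr : ∀ v, 0 < r v)
    (h1 : ∀ u v, G.Adj u v → dist (c u) (c v) ^ 2 = (r u + r v) ^ 2)
    (h2 : ∀ u v, u ≠ v → ¬ G.Adj u v → (r u + r v) ^ 2 < dist (c u) (c v) ^ 2) :
    IsBallPacking d G c r := by
  have hlt : ∀ u v, u ≠ v → ¬ G.Adj u v → (r u + r v) < dist (c u) (c v) := by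
    intro u v huv hadj
    exact lt_of_pow_lt_pow_left₀ 2 dist_nonneg (h2 u v huv hadj)
  have heq : ∀ u v, G.Adj u v → dist (c u) (c v) = r u + r v := by
    intro u v h
    have h3 := hr u
    have h4 := hr v
    exact (pow_left_inj₀ dist_nonneg (by positivity) (by norm_num)).1 (h1 u v h)
  refine ⟨hr, ?_, ?_⟩
  · intro u v huv
    rw [disjoint_ball_ball_iff (hr u) (hr v)]
    by_cases h : G.Adj u v
    · rw [heq u v h]
    · exact (hlt u v huv h).le
  · intro u v huv
    rw [← Set.not_disjoint_iff_nonempty_inter,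
      disjoint_closedBall_closedBall_iff (hr u).le (hr v).le]
    constructor
    · intro h
      by_contra hadj
      exact h (hlt u v huv hadj)
    · intro h
      rw [heq u v h]
      exact lt_irrefl _

lemma apex_identity (m : ℝ) (h : m ^ 2 - 1 ≠ 0) :
    (m / (m ^ 2 - 1)) ^ 2 + 1 / 4 = (1 / 2 + 1 / (m ^ 2 - 1)) ^ 2 := by
  have h2 : m ^ 2 = (m ^ 2 - 1) + 1 := by ring
  rw [div_pow, h2]
  set D := m ^ 2 - 1 with hD
  rw [add_sub_cancel_right]
  field_simp
  ring

lemma circle_packing (N : ℕ) : IsBallPacking 2 (PG N) (cen N) (rad N) := by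
  have hpos : ∀ k : Fin N, 0 < (2 * (k : ℝ) + 2) ^ 2 - 1 := by
    intro k
    have : (0 : ℝ) ≤ (k : ℝ) := by positivity
    nlinarith
  have hfac : ∀ i j : Fin N, (i : ℕ) < j →
      (2 * (i : ℝ) + 2) / ((2 * (i : ℝ) + 2) ^ 2 - 1) - (2 * (j : ℝ) + 2) / ((2 * (j : ℝ) + 2) ^ 2 - 1)
      = (1 / ((2 * (i : ℝ) + 2) ^ 2 - 1) + 1 / ((2 * (j : ℝ) + 2) ^ 2 - 1)) +
        (2 * ((j : ℝ) - i) - 2) * (2 * (i : ℝ) + 1) * (2 * (j : ℝ) + 3) /
          (((2 * (i : ℝ) + 2) ^ 2 - 1) * ((2 * (j : ℝ) + 2) ^ 2 - 1)) := by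
    intro i j _
    have h1 := (hpos i).ne'
    have h2 := (hpos j).ne'
    rw [div_sub_div _ _ h1 h2, div_add_div _ _ h1 h2, ← add_div]
    congr 1
    ring
  apply packing_of_sq
  · rintro (x | k)
    · norm_num [rad]
    · exact one_div_pos.2 (hpos k)
  · rintro (x | i) (y | j) h
    · have hxy : x ≠ y := h
      rcases x <;> rcases y <;> simp_all [cen, rad, dist_sq] <;> norm_num
    · have h2 := apex_identity _ (hpos j).ne'
      rcases x <;> simp only [cen, rad, dist_sq, if_true, if_false, Bool.false_eq_true] <;>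
        linarith
    · have h2 := apex_identity _ (hpos i).ne'
      rcases y <;> simp only [cen, rad, dist_sq, if_true, if_false, Bool.false_eq_true] <;>
        linarith
    · rcases h with h | h
      · have hlt : (i : ℕ) < j := by omega
        have hj : (j : ℝ) = i + 1 := by rw [← h]; push_cast; ring
        simp only [cen, rad, dist_sq]
        rw [hfac i j hlt]
        rw [hj]
        ring
      · have hlt : (j : ℕ) < i := by omega
        have hj : (i : ℝ) = j + 1 := by rw [← h]; push_cast; ring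
        simp only [cen, rad]
        rw [dist_comm, dist_sq, hfac j i hlt]
        rw [hj]
        ring
  · have main : ∀ i j : Fin N, (i : ℕ) + 1 < j →
        (rad N (Sum.inr i) + rad N (Sum.inr j)) ^ 2
          < dist (cen N (Sum.inr i)) (cen N (Sum.inr j)) ^ 2 := by
      intro i j hlt
      simp only [cen, rad, dist_sq]
      rw [hfac i j (by omega)]
      have h1 := hpos i
      have h2 := hpos j
      have h3 : ((i : ℕ) : ℝ) + 1 < (j : ℕ) := by exact_mod_cast hlt
      have h4 : 0 < (2 * ((j : ℝ) - i) - 2) * (2 * (i : ℝ) + 1) * (2 * (j : ℝ) + 3) /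
          (((2 * (i : ℝ) + 2) ^ 2 - 1) * ((2 * (j : ℝ) + 2) ^ 2 - 1)) := by
        have : 0 < (2 * ((j : ℝ) - i) - 2) := by linarith
        positivity
      have h5 : 0 < 1 / ((2 * (i : ℝ) + 2) ^ 2 - 1) + 1 / ((2 * (j : ℝ) + 2) ^ 2 - 1) := by
        positivity
      nlinarith
    rintro (x | i) (y | j) hne h
    · exact absurd (fun h' => hne (by rw [h'])) h
    · exact absurd trivial h
    · exact absurd trivial h
    · have hne' : (i : ℕ) ≠ j := fun h' => hne (by rw [Fin.ext h'])
      have h1 : ¬ ((i : ℕ) + 1 = j ∨ (j : ℕ) + 1 = i) := h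
      rcases lt_or_gt_of_ne hne' with hlt | hlt
      · exact main i j (by omega)
      · rw [dist_comm, add_comm]
        exact main j i (by omega)


/-- The height function: `0` at the first path vertex, `1` elsewhere. -/
def hgt (N : ℕ) : Bool ⊕ Fin (N + 1) → ℤ := fun v => if v = Sum.inr 0 then 0 else 1

lemma hgt_lt {N : ℕ} {u v : Bool ⊕ Fin (N + 1)} (h : hgt N u < hgt N v) : u = Sum.inr 0 := by
  unfold hgt at h
  by_contra hne
  rw [if_neg hne] at h
  split_ifs at h
  · omega
  · omega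

lemma connected_PG (N : ℕ) : (PG (N + 1)).Connected := by
  have hap : ∀ v : Bool ⊕ Fin (N + 1), (PG (N + 1)).Reachable (Sum.inl true) v := by
    rintro (x | i)
    · by_cases h : x = true
      · rw [h]
      · exact SimpleGraph.Adj.reachable (show true ≠ x from fun h' => h h'.symm)
    · exact SimpleGraph.Adj.reachable (show (PG (N + 1)).Adj (Sum.inl true) (Sum.inr i) from trivial)
  have : Nonempty (Bool ⊕ Fin (N + 1)) := ⟨Sum.inl true⟩
  exact ⟨fun u v => (hap u).symm.trans (hap v)⟩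

/-- **Disproof.** In every dimension `d` (in particular for `d = 3`) there are a finite connected
planar graph `G` (it has a circle packing) and a height function `f` on `G` such that for every
circle packing of `G` and every choice of nearest lower vertices, no graph containing the
augmented graph is sphere packable in `ℝ^d`. -/
theorem result (d : ℕ) : ∃ (n : ℕ) (G : SimpleGraph (Bool ⊕ Fin n)) (f : Bool ⊕ Fin n → ℤ),
    G.Connected ∧ IsHeight G f ∧
    (∃ (c : Bool ⊕ Fin n → EuclideanSpace ℝ (Fin 2)) (r : Bool ⊕ Fin n → ℝ),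
      IsBallPacking 2 G c r) ∧
    ∀ (c : Bool ⊕ Fin n → EuclideanSpace ℝ (Fin 2)) (r : Bool ⊕ Fin n → ℝ),
      IsBallPacking 2 G c r →
      ∀ s : Bool ⊕ Fin n → Bool ⊕ Fin n, IsNearestLower f c s →
      ∀ H : SimpleGraph (Bool ⊕ Fin n), augment G f s ≤ H → ¬ SpherePackable d H := by
  obtain ⟨N, hN⟩ := no_pack d
  refine ⟨N + 1, PG (N + 1), hgt N, connected_PG N, ?_, ⟨_, _, circle_packing (N + 1)⟩, ?_⟩
  · intro u v _
    unfold hgt
    split_ifs <;> simp
  · intro c r hcr s hs H hH
    have hlow : ∀ v : Bool ⊕ Fin (N + 1), v ≠ Sum.inr 0 → H.Adj (Sum.inr 0) v := by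
      intro v hv
      apply hH
      have hex : ∃ u, hgt N u < hgt N v := by
        refine ⟨Sum.inr 0, ?_⟩
        simp [hgt, hv]
      have hsv : s v = Sum.inr 0 := hgt_lt (hs v hex).1
      right
      rw [SimpleGraph.fromRel_adj]
      exact ⟨hv.symm, Or.inr ⟨hex, hsv.symm⟩⟩
    have hG : ∀ u v, (PG (N + 1)).Adj u v → H.Adj u v := by
      intro u v h
      exact hH (Or.inl h)
    refine hN _ H (Sum.inl true) (Sum.inl false) (Sum.inr 0) (fun i => Sum.inr i.succ) ?_ ?_ ?_ ?_ ?_
    · intro i j hij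
      simpa using hij
    · exact hG _ _ (show true ≠ false by decide)
    · exact hG _ _ trivial
    · exact hG _ _ trivial
    · intro i
      refine ⟨hG _ _ trivial, hG _ _ trivial, hlow _ ?_⟩
      simp

end Pool.Agent.Results.MP_ffcab7_co.NotPackable
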